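import Pool.Agent.Q170.MP.Pot
import Pool.Agent.Q170.MP.Vir

/-! At `β = 0`, `n = 2` there is no monster potential, while the degree two part of the irreducible
Virasoro module has dimension one. -/

namespace Pool.Agent.Results.MP_151aca_mp.NoMonsterTwo
open Q170.MP Pool.Agent.Helper855.Gko

/-- `N_2(0) = 0` and `d_2^{(0)} = 1`; so `N_n(β) = d_n^{(β)}` fails for the integer `β = 0` and
`n = 2`. The module used for `d_n^{(β)}` is simple. -/
theorem result :
    (¬ ∀ (β : ℤ) (n : ℕ), numMonster (β : ℂ) n = (dimIrr (β : ℂ) n : ℕ∞)) ∧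
    numMonster 0 2 = 0 ∧ dimIrr 0 2 = 1 ∧
    ∀ β : ℂ, IsSimpleModule (UVir ℂ) (Simple ℂ (-2) ((β ^ 2 - 1) / 8)) := by
  refine ⟨fun h => ?_, numMonster_zero_two, dimIrr_zero_two, fun β => simple_isSimple _ _⟩
  have h1 := h 0 2
  rw [Int.cast_zero, numMonster_zero_two, dimIrr_zero_two] at h1
  simp at h1

end Pool.Agent.Results.MP_151aca_mp.NoMonsterTwo
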